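import Pool.Agent.Lib.MP_ddde1e_an.Skew

/-! Birkhoff sums modulo one with prescribed values, over an arbitrary base system. -/

namespace Pool.Agent.FS.AnyBase69

open Finset Pool.Agent.Lib.MP_ddde1e_an

variable {Y : Type} [MetricSpace Y]

theorem ab_ext (o : ℕ → Y) (ho : Function.Injective o) (N : ℕ) (g : ℕ → ℝ) (B : ℝ) (hB : 0 ≤ B)
    (hg : ∀ r, |g r| ≤ B) :
    ∃ Ψ : Y → ℝ, Continuous Ψ ∧ (∀ x, |Ψ x| ≤ B) ∧ ∀ j < N, Ψ (o j) = g j := by
  have he : Topology.IsClosedEmbedding (fun i : Fin N => o i) :=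
    (continuous_of_discreteTopology).isClosedEmbedding (ho.comp Fin.val_injective)
  obtain ⟨G, h1, h2⟩ := ContinuousMap.exists_extension_forall_mem_of_isClosedEmbedding
    (⟨fun i : Fin N => g i, continuous_of_discreteTopology⟩ : C(Fin N, ℝ)) (t := Set.Icc (-B) B)
    (fun i => abs_le.mp (hg i)) ⟨0, by constructor <;> linarith⟩ he
  exact ⟨G, G.continuous, fun x => abs_le.mpr (h1 x), fun j hj => congrFun h2 ⟨j, hj⟩⟩

theorem ab_step (o : ℕ → Y) (ho : Function.Injective o) {n : ℕ → ℕ} (hn : StrictMono n)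
    (c : ℕ → ℝ) (a b : ℕ) (L : ℝ) (hL : 0 < L)
    (hgap : ∀ k, a ≤ k → L ≤ ((n (k + 1) - n k : ℕ) : ℝ)) (S : Y → ℝ) :
    ∃ Ψ : Y → ℝ, Continuous Ψ ∧ (∀ x, |Ψ x| ≤ 1 / L) ∧
      (∀ j : ℕ, j < n a → j < n b → Ψ (o j) = 0) ∧
      (∀ k, a ≤ k → k < b → ∃ z : ℤ,
        ∑ j ∈ Ico (n k) (n (k + 1)), (S (o j) + Ψ (o j)) = c k + z) := by
  classical
  let h : ℕ → ℝ := fun k =>
    Int.fract (c k - ∑ j ∈ Ico (n k) (n (k + 1)), S (o j)) / ((n (k + 1) - n k : ℕ) : ℝ)
  let g : ℕ → ℝ := fun r =>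
    if hr : ∃ k, a ≤ k ∧ n k ≤ r ∧ r < n (k + 1) then h hr.choose else 0
  have hgb : ∀ r, |g r| ≤ 1 / L := by
    intro r
    simp only [g]
    split_ifs with hr
    · obtain ⟨h1, -, -⟩ := hr.choose_spec
      have hg := hgap _ h1
      have hpos : (0 : ℝ) < ((n (hr.choose + 1) - n hr.choose : ℕ) : ℝ) := lt_of_lt_of_le hL hg
      simp only [h]
      rw [abs_of_nonneg (div_nonneg (Int.fract_nonneg _) hpos.le)]
      calc _ ≤ 1 / ((n (hr.choose + 1) - n hr.choose : ℕ) : ℝ) := by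
            gcongr
            exact (Int.fract_lt_one _).le
        _ ≤ 1 / L := by gcongr
    · simp only [abs_zero]
      positivity
  obtain ⟨Ψ, c1, c2, c3⟩ := ab_ext o ho (n b) g (1 / L) (by positivity) hgb
  refine ⟨Ψ, c1, c2, ?_, ?_⟩
  · intro j hja hjb
    rw [c3 j hjb]
    simp only [g]
    rw [dif_neg]
    rintro ⟨k, h1, h2, -⟩
    have : n a ≤ n k := hn.monotone h1
    omega
  · intro k hak hkb
    have hnb : n (k + 1) ≤ n b := hn.monotone hkb
    have hval : ∀ j ∈ Ico (n k) (n (k + 1)), Ψ (o j) = h k := by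
      intro j hj
      rw [mem_Ico] at hj
      rw [c3 j (lt_of_lt_of_le hj.2 hnb)]
      have hr : ∃ k, a ≤ k ∧ n k ≤ j ∧ j < n (k + 1) := ⟨k, hak, hj.1, hj.2⟩
      simp only [g]
      rw [dif_pos hr]
      obtain ⟨-, h2, h3⟩ := hr.choose_spec
      rw [block_unique hn h2 h3 hj.1 hj.2]
    have hpos : (0 : ℝ) < ((n (k + 1) - n k : ℕ) : ℝ) := lt_of_lt_of_le hL (hgap k hak)
    refine ⟨-⌊c k - ∑ j ∈ Ico (n k) (n (k + 1)), S (o j)⌋, ?_⟩
    rw [sum_add_distrib, sum_congr rfl hval, sum_const, Nat.card_Ico, nsmul_eq_mul]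
    simp only [h]
    rw [mul_div_cancel₀ _ hpos.ne', Int.fract]
    push_cast
    ring

theorem ab_cocycle (o : ℕ → Y) (ho : Function.Injective o) {n : ℕ → ℕ} (hn : StrictMono n)
    (hg : Filter.Tendsto (fun k : ℕ => n (k + 1) - n k) Filter.atTop Filter.atTop) (c : ℕ → ℝ) :
    ∃ ψ : Y → ℝ, Continuous ψ ∧
      ∀ k, ∃ z : ℤ, ∑ j ∈ Ico (n k) (n (k + 1)), ψ (o j) = c k + z := by
  obtain ⟨K, hK, hK0, hKg⟩ := exists_epochs hn hg
  have hstep : ∀ (i : ℕ) (S : Y → ℝ), ∃ Ψ : Y → ℝ, Continuous Ψ ∧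
      (∀ x, |Ψ x| ≤ 1 / (2 : ℝ) ^ i) ∧
      (∀ j : ℕ, j < n (K i) → j < n (K (i + 1)) → Ψ (o j) = 0) ∧
      (∀ k, K i ≤ k → k < K (i + 1) → ∃ z : ℤ,
        ∑ j ∈ Ico (n k) (n (k + 1)), (S (o j) + Ψ (o j)) = c k + z) := by
    intro i S
    refine ab_step o ho hn c (K i) (K (i + 1)) _ (by positivity) ?_ S
    intro k hk
    exact_mod_cast hKg i k hk
  choose Ψ hcont hbound hzero hsum using hstep
  let S : ℕ → Y → ℝ := fun i => Nat.rec (fun _ => 0) (fun i T => fun x => T x + Ψ i T x) i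
  have hS : ∀ i x, S (i + 1) x = S i x + Ψ i (S i) x := fun i x => rfl
  let u : ℕ → Y → ℝ := fun i => Ψ i (S i)
  have hSsum : ∀ i x, S i x = ∑ l ∈ range i, u l x := by
    intro i x
    induction i with
    | zero => rfl
    | succ i ih => rw [hS, sum_range_succ, ih]
  have hsummable : Summable (fun i : ℕ => 1 / (2 : ℝ) ^ i) := by
    simpa using summable_geometric_two
  refine ⟨fun x => ∑' i, u i x, continuous_tsum (fun i => hcont i _) hsummable
    (fun i x => hbound i _ x), ?_⟩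
  intro k
  have hex : ∃ i, k < K (i + 1) := ⟨k, lt_of_lt_of_le (Nat.lt_succ_self k) (hK.id_le (k + 1))⟩
  classical
  let i := Nat.find hex
  have hi1 : k < K (i + 1) := Nat.find_spec hex
  have hi0 : K i ≤ k := by
    rcases Nat.eq_zero_or_pos i with h | h
    · rw [h, hK0]
      exact Nat.zero_le _
    · have := Nat.find_min hex (m := i - 1) (by omega)
      rw [Nat.sub_add_cancel h] at this
      omega
  obtain ⟨z, hz⟩ := hsum i (S i) k hi0 hi1
  refine ⟨z, ?_⟩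
  rw [← hz]
  refine sum_congr rfl ?_
  intro j hj
  rw [mem_Ico] at hj
  have hjlt : j < n (K (i + 1)) := lt_of_lt_of_le hj.2 (hn.monotone hi1)
  refine Eq.trans ?_ ((hSsum (i + 1) (o j)).symm.trans (hS i (o j)))
  apply tsum_eq_sum
  intro l hl
  rw [mem_range, not_lt] at hl
  apply hzero
  · exact lt_of_lt_of_le hjlt (hn.monotone (hK.monotone hl))
  · exact lt_of_lt_of_le hjlt (hn.monotone (hK.monotone (by omega)))

omit [MetricSpace Y] in
theorem ab_iter {G : Type} [AddCommMonoid G] (R : Y → Y) (ψ : Y → G) (y : Y) (t : G) (m : ℕ) :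
    (fun p : Y × G => (R p.1, p.2 + ψ p.1))^[m] (y, t) =
      (R^[m] y, t + ∑ j ∈ range m, ψ (R^[j] y)) := by
  induction m with
  | zero => simp
  | succ m ih =>
    rw [Function.iterate_succ_apply', ih, sum_range_succ, Function.iterate_succ_apply']
    simp [add_assoc]

theorem ab_coe_sum (s : Finset ℕ) (a : ℕ → ℝ) :
    ((∑ j ∈ s, a j : ℝ) : UnitAddCircle) = ∑ j ∈ s, ((a j : ℝ) : UnitAddCircle) :=
  map_sum (QuotientAddGroup.mk' (AddSubgroup.zmultiples (1 : ℝ))) a s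

theorem ab_suff (R : Y → Y) (y : Y) (hy : Function.Injective fun j : ℕ => R^[j] y)
    {n : ℕ → ℕ} (hn : StrictMono n)
    (hg : Filter.Tendsto (fun k : ℕ => n (k + 1) - n k) Filter.atTop Filter.atTop)
    (f : ℕ → UnitAddCircle) :
    ∃ ψ : Y → ℝ, Continuous ψ ∧ ∃ t : UnitAddCircle, ∀ k,
      t + ∑ j ∈ range (n k), ((ψ (R^[j] y) : ℝ) : UnitAddCircle) = f k := by
  have hs : ∀ k, ∃ r : ℝ, (r : UnitAddCircle) = f (k + 1) - f k := fun k =>
    QuotientAddGroup.mk_surjective _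
  choose c hc using hs
  obtain ⟨ψ, h1, h2⟩ := ab_cocycle _ hy hn hg c
  refine ⟨ψ, h1, f 0 - ∑ j ∈ range (n 0), ((ψ (R^[j] y) : ℝ) : UnitAddCircle), fun k => ?_⟩
  induction k with
  | zero => simp
  | succ k ih =>
    obtain ⟨z, hz⟩ := h2 k
    have hz0 : (((z : ℤ) : ℝ) : UnitAddCircle) = 0 :=
      (AddCircle.coe_eq_zero_iff (1 : ℝ)).mpr ⟨z, by simp⟩
    rw [← sum_range_add_sum_Ico _ (hn.monotone (Nat.le_succ k)), ← add_assoc, ih, ← ab_coe_sum,
      hz, AddCircle.coe_add, hz0, hc]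
    abel

theorem ab_nec [CompactSpace Y] (R : Y → Y) (hR : Continuous R) (y : Y)
    {n : ℕ → ℕ} (hn : StrictMono n)
    (H : ∀ f : ℕ → UnitAddCircle, ∃ ψ : Y → UnitAddCircle, Continuous ψ ∧ ∃ t : UnitAddCircle,
      ∀ k, t + ∑ j ∈ range (n k), ψ (R^[j] y) = f k) :
    Filter.Tendsto (fun k : ℕ => n (k + 1) - n k) Filter.atTop Filter.atTop := by
  classical
  by_contra hno
  obtain ⟨g, hg⟩ : ∃ g, ∃ᶠ k in Filter.atTop, n (k + 1) - n k = g := by
    by_contra h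
    push Not at h
    apply hno
    refine Filter.tendsto_atTop.2 fun b => ?_
    have h1 : ∀ᶠ k in Filter.atTop, ∀ g ∈ range b, n (k + 1) - n k ≠ g :=
      (Filter.eventually_all_finset _).2 fun g _ => by simpa using h g
    filter_upwards [h1] with k hk
    by_contra h2
    exact hk _ (mem_range.2 (not_le.1 h2)) rfl
  obtain ⟨φ, hφ, hφg⟩ := Filter.extraction_of_frequently_atTop hg
  obtain ⟨u, χ, hχ, hu⟩ := CompactSpace.tendsto_subseq fun i => R^[n (φ i)] y
  have hκ : StrictMono (φ ∘ χ) := hφ.comp hχ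
  let c : ℕ → UnitAddCircle := fun k =>
    if ∃ i, k = (φ ∘ χ) (2 * i) then ((1 / 2 : ℝ) : UnitAddCircle) else 0
  obtain ⟨ψ, hψ, t, ht⟩ := H fun k => ∑ l ∈ range k, c l
  let Φ : Y → UnitAddCircle := fun x => ∑ j ∈ range g, ψ (R^[j] x)
  have hΦ : Continuous Φ := continuous_finsetSum _ fun j _ => hψ.comp (hR.iterate j)
  have hval : ∀ i, Φ (R^[n (φ i)] y) = c (φ i) := by
    intro i
    have h1 := ht (φ i + 1)
    have e : n (φ i + 1) = n (φ i) + g := by
      have := hφg i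
      have := hn (Nat.lt_succ_self (φ i))
      simp only [Nat.succ_eq_add_one] at this
      omega
    rw [e, sum_range_add, ← add_assoc, ht, sum_range_succ] at h1
    have h2 := add_left_cancel h1
    rw [← h2]
    refine sum_congr rfl fun j _ => ?_
    rw [add_comm, Function.iterate_add_apply]
  have hlim : Filter.Tendsto (fun i => c ((φ ∘ χ) i)) Filter.atTop (nhds (Φ u)) := by
    refine ((hΦ.tendsto u).comp hu).congr fun i => ?_
    exact hval (χ i)
  have e1 : Filter.Tendsto (fun i : ℕ => 2 * i) Filter.atTop Filter.atTop :=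
    Filter.tendsto_atTop_mono (fun i => by simp only [id]; omega) Filter.tendsto_id
  have e2 : Filter.Tendsto (fun i : ℕ => 2 * i + 1) Filter.atTop Filter.atTop :=
    Filter.tendsto_atTop_mono (fun i => by simp only [id]; omega) Filter.tendsto_id
  have a1 : Φ u = ((1 / 2 : ℝ) : UnitAddCircle) := by
    refine tendsto_nhds_unique (hlim.comp e1) (tendsto_const_nhds.congr fun i => ?_)
    exact (if_pos ⟨i, rfl⟩).symm
  have a2 : Φ u = 0 := by
    refine tendsto_nhds_unique (hlim.comp e2) (tendsto_const_nhds.congr fun i => ?_)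
    refine (if_neg ?_).symm
    rintro ⟨l, hl⟩
    have : 2 * i + 1 = 2 * l := hκ.injective hl
    omega
  rw [a2, eq_comm, AddCircle.coe_eq_zero_iff] at a1
  obtain ⟨z, hz⟩ := a1
  rw [zsmul_eq_mul, mul_one] at hz
  have h3 : ((2 * z : ℤ) : ℝ) = ((1 : ℤ) : ℝ) := by push_cast; linarith
  have h4 : 2 * z = 1 := by exact_mod_cast h3
  omega

end Pool.Agent.FS.AnyBase69
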