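import Pool.Agent.FS.AnyBase69.Main

/-! The skew product can be chosen minimal when the base is minimal. -/

namespace Pool.Agent.FS.AnyBase69

open Finset

variable {Y : Type} [MetricSpace Y]

theorem ab_set (R : Y → Y) (y : Y) (hy : Function.Injective fun j : ℕ => R^[j] y)
    (S : Set ℕ) (hS : S.Infinite)
    (hsep : ∀ b, ∃ N, ∀ x ∈ S, ∀ x' ∈ S, N ≤ x → x < x' → x + b ≤ x') (F : ℕ → UnitAddCircle) :
    ∃ ψ : Y → ℝ, Continuous ψ ∧ ∃ t : UnitAddCircle, ∀ x ∈ S,
      t + ∑ j ∈ range x, ((ψ (R^[j] y) : ℝ) : UnitAddCircle) = F x := by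
  have hn := Nat.nth_strictMono (p := (· ∈ S)) hS
  have hm := Nat.nth_mem_of_infinite (p := (· ∈ S)) hS
  obtain ⟨ψ, h1, t, h2⟩ := ab_suff R y hy hn (Filter.tendsto_atTop.2 fun b => by
    obtain ⟨N, hN⟩ := hsep b
    refine Filter.eventually_atTop.2 ⟨N, fun k hk => ?_⟩
    have := hN _ (hm k) _ (hm (k + 1)) (hk.trans (hn.id_le k)) (hn (Nat.lt_succ_self k))
    omega) fun k => F (Nat.nth (· ∈ S) k)
  refine ⟨ψ, h1, t, fun x hx => ?_⟩
  obtain ⟨k, rfl⟩ := Nat.subset_range_nth (p := (· ∈ S)) hx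
  exact h2 k

theorem ab_setv {ι : Type} (R : Y → Y) (y : Y) (hy : Function.Injective fun j : ℕ => R^[j] y)
    (S : Set ℕ) (hS : S.Infinite)
    (hsep : ∀ b, ∃ N, ∀ x ∈ S, ∀ x' ∈ S, N ≤ x → x < x' → x + b ≤ x')
    (F : ℕ → ι → UnitAddCircle) :
    ∃ ψ : Y → ι → ℝ, Continuous ψ ∧ ∃ t : ι → UnitAddCircle, ∀ x ∈ S,
      t + ∑ j ∈ range x, (fun i => ((ψ (R^[j] y) i : ℝ) : UnitAddCircle)) = F x := by
  choose ψ h1 t h2 using fun i => ab_set R y hy S hS hsep fun x => F x i
  refine ⟨fun x i => ψ i x, continuous_pi h1, t, fun x hx => funext fun i => ?_⟩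
  rw [Pi.add_apply, Finset.sum_apply]
  exact h2 i x hx

theorem ab_synd [CompactSpace Y] (R : Y → Y) (hR : Continuous R)
    (hmin : ∀ x, DenseRange fun j : ℕ => R^[j] x) (u : Y) (ε : ℝ) (hε : 0 < ε) :
    ∃ L, ∀ x, ∃ j < L, dist (R^[j] x) u < ε := by
  obtain ⟨s, hs⟩ := isCompact_univ.elim_finite_subcover
    (fun j : ℕ => (R^[j]) ⁻¹' Metric.ball u ε)
    (fun j => Metric.isOpen_ball.preimage (hR.iterate j)) fun x _ => by
      obtain ⟨j, hj⟩ := (hmin x).exists_dist_lt u hε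
      exact Set.mem_iUnion.2 ⟨j, by simpa [dist_comm] using hj⟩
  refine ⟨s.sup id + 1, fun x => ?_⟩
  obtain ⟨j, hj, hx⟩ := Set.mem_iUnion₂.1 (hs (Set.mem_univ x))
  exact ⟨j, Nat.lt_succ_of_le (Finset.le_sup (f := id) hj), hx⟩

theorem ab_dense {ι : Type} [Fintype ι] [CompactSpace Y] (R : Y → Y) (hR : Continuous R)
    (hmin : ∀ x, DenseRange fun j : ℕ => R^[j] x) (y : Y)
    (hy : Function.Injective fun j : ℕ => R^[j] y) {n : ℕ → ℕ} (hn : StrictMono n)
    (hg : Filter.Tendsto (fun k : ℕ => n (k + 1) - n k) Filter.atTop Filter.atTop)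
    (f : ℕ → ι → UnitAddCircle) :
    ∃ ψ : Y → ι → ℝ, Continuous ψ ∧ ∃ t : ι → UnitAddCircle,
      (∀ k, t + ∑ j ∈ range (n k), (fun i => ((ψ (R^[j] y) i : ℝ) : UnitAddCircle)) = f k) ∧
      DenseRange fun x : ℕ =>
        (R^[x] y, t + ∑ j ∈ range x, (fun i => ((ψ (R^[j] y) i : ℝ) : UnitAddCircle))) := by
  classical
  have : Nonempty (Y × (ι → UnitAddCircle)) := ⟨(y, 0)⟩
  let d : ℕ → Y × (ι → UnitAddCircle) := fun i =>
    TopologicalSpace.denseSeq (Y × (ι → UnitAddCircle)) (Nat.unpair i).1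
  choose L hL using fun i : ℕ =>
    ab_synd R hR hmin (d i).1 (1 / ((i : ℝ) + 1)) Nat.one_div_pos_of_nat
  choose G hG using fun b : ℕ => Filter.eventually_atTop.1 (Filter.tendsto_atTop.1 hg b)
  let κ : ℕ → ℕ := fun i => i + ∑ l ∈ range (i + 1), G (L l + 2 * l + 2)
  have hκ : StrictMono κ := strictMono_nat_of_lt_succ fun i => by
    simp only [κ]
    rw [sum_range_succ _ (i + 1)]
    omega
  have hκG : ∀ i, L i + 2 * i + 2 ≤ n (κ i + 1) - n (κ i) := fun i => hG _ _ (by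
    simp only [κ]
    rw [sum_range_succ]
    omega)
  choose J hJ1 hJ2 using fun i => hL i (R^[n (κ i) + i + 1] y)
  let m : ℕ → ℕ := fun i => J i + (n (κ i) + i + 1)
  have m1 : ∀ i, n (κ i) + i + 1 ≤ m i := fun i => Nat.le_add_left _ _
  have m2 : ∀ i, m i + i + 1 ≤ n (κ i + 1) := fun i => by
    have := hκG i
    have := hJ1 i
    simp only [m]
    omega
  have hm : StrictMono m := strictMono_nat_of_lt_succ fun i => by
    have := m2 i
    have := m1 (i + 1)
    have : n (κ i + 1) ≤ n (κ (i + 1)) := hn.monotone (hκ (Nat.lt_succ_self i))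
    omega
  have hnm : ∀ k i, n k ≠ m i := fun k i e => by
    have a : κ i < k := hn.lt_iff_lt.1 (by have := m1 i; omega)
    have b : k < κ i + 1 := hn.lt_iff_lt.1 (by have := m2 i; omega)
    omega
  let F : ℕ → ι → UnitAddCircle := fun x =>
    if h : ∃ k, n k = x then f h.choose else if h : ∃ i, m i = x then (d h.choose).2 else 0
  have F1 : ∀ k, F (n k) = f k := fun k => by
    have h : ∃ k', n k' = n k := ⟨k, rfl⟩
    simp only [F]
    rw [dif_pos h, hn.injective h.choose_spec]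
  have F2 : ∀ i, F (m i) = (d i).2 := fun i => by
    have h : ∃ i', m i' = m i := ⟨i, rfl⟩
    simp only [F]
    rw [dif_neg (fun ⟨k, e⟩ => hnm k i e), dif_pos h, hm.injective h.choose_spec]
  obtain ⟨ψ, h1, t, h2⟩ := ab_setv R y hy (Set.range n ∪ Set.range m)
    ((Set.infinite_range_of_injective hn.injective).mono Set.subset_union_left) (fun b => by
      refine ⟨n (G b) + m b, ?_⟩
      rintro _ (⟨k, rfl⟩ | ⟨i, rfl⟩) _ (⟨k', rfl⟩ | ⟨i', rfl⟩) hN hlt
      · have a : G b ≤ k := hn.le_iff_le.1 (by omega)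
        have := hG b k a
        have : n (k + 1) ≤ n k' := hn.monotone (hn.lt_iff_lt.1 hlt)
        have := hn (Nat.lt_succ_self k)
        simp only [Nat.succ_eq_add_one] at this
        omega
      · have a : b ≤ i' := hm.le_iff_le.1 (by omega)
        have c : k < κ i' + 1 := hn.lt_iff_lt.1 (by have := m2 i'; omega)
        have : n k ≤ n (κ i') := hn.monotone (by omega)
        have := m1 i'
        omega
      · have a : b ≤ i := hm.le_iff_le.1 (by omega)
        have c : κ i < k' := hn.lt_iff_lt.1 (by have := m1 i; omega)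
        have : n (κ i + 1) ≤ n k' := hn.monotone c
        have := m2 i
        omega
      · have a : b ≤ i := hm.le_iff_le.1 (by omega)
        have : n (κ i + 1) ≤ n (κ i') := hn.monotone (hκ (hm.lt_iff_lt.1 hlt))
        have := m2 i
        have := m1 i'
        omega) F
  refine ⟨ψ, h1, t, fun k => (h2 _ (Or.inl ⟨k, rfl⟩)).trans (F1 k), ?_⟩
  refine Metric.denseRange_iff.2 fun p ε hε => ?_
  obtain ⟨l, hl⟩ := (TopologicalSpace.denseRange_denseSeq (Y × (ι → UnitAddCircle))).exists_dist_lt p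
    (half_pos hε)
  obtain ⟨r, hr⟩ := exists_nat_one_div_lt (half_pos hε)
  refine ⟨m (Nat.pair l r), ?_⟩
  have e : d (Nat.pair l r) = TopologicalSpace.denseSeq (Y × (ι → UnitAddCircle)) l := by
    simp only [d, Nat.unpair_pair]
  have h3 := hJ2 (Nat.pair l r)
  rw [← Function.iterate_add_apply] at h3
  have h4 : 1 / (((Nat.pair l r : ℕ) : ℝ) + 1) ≤ 1 / ((r : ℝ) + 1) :=
    Nat.one_div_le_one_div (Nat.right_le_pair l r)
  rw [h2 _ (Or.inr ⟨_, rfl⟩), F2]
  refine (dist_triangle _ (d (Nat.pair l r)) _).trans_lt ?_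
  have h5 : dist (d (Nat.pair l r)) (R^[m (Nat.pair l r)] y, (d (Nat.pair l r)).2) < ε / 2 := by
    rw [Prod.dist_eq, dist_self, max_eq_left dist_nonneg, dist_comm]
    exact h3.trans_le (h4.trans hr.le)
  rw [← e] at hl
  linarith

theorem ab_min {G : Type} [AddCommGroup G] [TopologicalSpace G] [IsTopologicalAddGroup G]
    [CompactSpace G] [CompactSpace Y] (R : Y → Y) (hR : Continuous R)
    (hmin : ∀ x, DenseRange fun j : ℕ => R^[j] x) (ψ : Y → G) (hψ : Continuous ψ)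
    (y : Y) (t : G)
    (hd : DenseRange fun x : ℕ => (R^[x] y, t + ∑ j ∈ range x, ψ (R^[j] y)))
    (p : Y × G) :
    DenseRange fun j : ℕ => (fun p : Y × G => (R p.1, p.2 + ψ p.1))^[j] p := by
  set T := fun p : Y × G => (R p.1, p.2 + ψ p.1) with hT
  have hTc : Continuous T := by fun_prop
  set C := closure (Set.range fun j : ℕ => T^[j] p) with hC
  have hinv : Set.MapsTo T C C := Set.MapsTo.closure (by
    rintro _ ⟨j, rfl⟩
    exact ⟨j + 1, Function.iterate_succ_apply' _ _ _⟩) hTc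
  have hcl : IsClosed (Prod.fst '' C) := (isClosed_closure.isCompact.image continuous_fst).isClosed
  have hy : y ∈ Prod.fst '' C := by
    refine hcl.closure_subset_iff.2 ?_ (hmin p.1 y)
    rintro _ ⟨j, rfl⟩
    exact ⟨T^[j] p, subset_closure ⟨j, rfl⟩, congrArg Prod.fst (ab_iter R ψ p.1 p.2 j)⟩
  obtain ⟨⟨y', s⟩, hs, rfl⟩ := hy
  have hsur : DenseRange fun q : Y × G => (q.1, q.2 + (s - t)) :=
    Function.Surjective.denseRange fun q => ⟨(q.1, q.2 - (s - t)), by simp⟩
  have h2 := hsur.comp hd (by fun_prop)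
  intro q
  refine isClosed_closure.closure_subset_iff.2 ?_ (h2 q)
  rintro _ ⟨j, rfl⟩
  have h3 := hinv.iterate j hs
  rw [hT, ab_iter] at h3
  convert h3 using 1
  simp only [Function.comp]
  congr 1
  abel

end Pool.Agent.FS.AnyBase69
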